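import Mathlib

set_option autoImplicit false

namespace Pool.Agent.Results.MP_f4a429_co.Upper

open Finset

/-- The action of a word, read from left to right. -/
def act {n : ℕ} (w : List (Fin n → Fin n)) (x : Fin n) : Fin n := w.foldl (fun y f => f y) x

/-- `w` is a word over `Ω` that sends some `3`-set to one state. -/
def Sync3 {n : ℕ} (Ω : Finset (Fin n → Fin n)) (w : List (Fin n → Fin n)) : Prop :=
  (∀ f ∈ w, f ∈ Ω) ∧ ∃ S : Finset (Fin n), S.card = 3 ∧ ∃ v, ∀ x ∈ S, act w x = v

section Aux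

variable {n : ℕ} {Ω : Finset (Fin n → Fin n)}

lemma act_app (u v : List (Fin n → Fin n)) (x : Fin n) : act (u ++ v) x = act v (act u x) :=
  List.foldl_append ..

lemma sync_iff {w : List (Fin n → Fin n)} : Sync3 Ω w ↔ (∀ f ∈ w, f ∈ Ω) ∧ ∃ x y z, x ≠ y ∧ x ≠ z ∧
    y ≠ z ∧ act w x = act w y ∧ act w x = act w z := by
  refine and_congr_right fun _ => ⟨?_, ?_⟩
  · rintro ⟨S, h, v, e⟩
    obtain ⟨x, y, z, a, b, c, rfl⟩ := card_eq_three.1 h
    exact ⟨x, y, z, a, b, c, by rw [e x (by simp), e y (by simp)],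
      by rw [e x (by simp), e z (by simp)]⟩
  · rintro ⟨x, y, z, a, b, c, d, e⟩
    exact ⟨{x, y, z}, card_eq_three.2 ⟨x, y, z, a, b, c, rfl⟩, act w x, by simp [d.symm, e.symm]⟩

/-- merging a pair within `k` steps -/
def Mer (Ω : Finset (Fin n → Fin n)) (k : ℕ) (a b : Fin n) : Prop :=
  ∃ w : List (Fin n → Fin n), (∀ f ∈ w, f ∈ Ω) ∧ w.length ≤ k ∧ act w a = act w b

lemma short (p : Fin n) (v : List (Fin n → Fin n)) (hv : ∀ f ∈ v, f ∈ Ω) :
    ∃ u : List (Fin n → Fin n), (∀ f ∈ u, f ∈ Ω) ∧ u.length < n ∧ act u p = act v p := by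
  induction h : v.length using Nat.strong_induction_on generalizing v with
  | _ k ih =>
  by_cases hk : k < n
  · exact ⟨v, hv, h ▸ hk, rfl⟩
  obtain ⟨i, hi, j, hj, ij, e⟩ := exists_ne_map_eq_of_card_lt_of_maps_to
    (s := range (n + 1)) (t := univ) (f := fun i => act (v.take i) p) (by simp) (by simp)
  wlog lt : i < j generalizing i j
  · exact this j hj i hi ij.symm e.symm (by omega)
  simp only [mem_range] at hi hj
  obtain ⟨u, a, b, c⟩ := ih (v.take i ++ v.drop j).length (by simp; omega) _ (fun f hf => by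
    rcases List.mem_append.1 hf with hf | hf
    exacts [hv f (List.mem_of_mem_take hf), hv f (List.mem_of_mem_drop hf)]) rfl
  refine ⟨u, a, b, c.trans ?_⟩
  rw [act_app, e, ← act_app, List.take_append_drop]

theorem core (f : Fin n → Fin n) (w : List (Fin n → Fin n)) (hf : f ∈ Ω) (hw : ∀ g ∈ w, g ∈ Ω)
    (x y z : Fin n) (xy : x ≠ y) (e : f x = f y) (e' : act w (f x) = act w (f z))
    (xz : x ≠ z) (yz : y ≠ z) (hmin : ∀ u, Sync3 Ω u → w.length + 1 ≤ u.length) :
    5 * (w.length + 1) ≤ 2 * n ^ 2 + 10 * n := by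
  classical
  have n0 : 0 < n := x.pos
  by_cases hm : w.length + 1 ≤ n
  · nlinarith
  have far : ∀ v : List (Fin n → Fin n), (∀ g ∈ v, g ∈ Ω) → ∀ c k, c ≠ x → c ≠ y →
      Mer Ω k (act v (f x)) (act v (f c)) → w.length ≤ v.length + k := by
    rintro v hv c k cx cy ⟨u, a, b, d⟩
    have := hmin (f :: (v ++ u)) (sync_iff.2 ⟨by
      simp only [List.mem_cons, List.mem_append]
      rintro g (rfl | h | h)
      exacts [hf, hv g h, a g h], x, y, c, xy, cx.symm, cy.symm,
      congrArg (act (v ++ u)) e, by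
        change act (v ++ u) (f x) = act (v ++ u) (f c)
        rw [act_app, act_app, d]⟩)
    simp at this
    omega
  obtain ⟨P, hP⟩ : ∃ P : ℕ → Fin n, ∀ t, P t = act (w.take t) (f x) := ⟨_, fun _ => rfl⟩
  obtain ⟨Q, hQ⟩ : ∃ Q : ℕ → Fin n, ∀ t, Q t = act (w.take t) (f z) := ⟨_, fun _ => rfl⟩
  have up : ∀ t, Mer Ω (w.length - t) (P t) (Q t) := fun t =>
    ⟨w.drop t, fun g h => hw g (List.mem_of_mem_drop h), by simp, by
      rw [hP, hQ, ← act_app, ← act_app, List.take_append_drop, e']⟩
  have lo : ∀ t k, Mer Ω k (P t) (Q t) → w.length ≤ t + k := fun t k h => by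
    rw [hP, hQ] at h
    have := far _ (fun g h => hw g (List.mem_of_mem_take h)) z k xz.symm yz.symm h
    simp only [List.length_take] at this
    omega
  have sy : ∀ k a b, Mer Ω k a b → Mer Ω k b a := fun k a b ⟨u, a, b, c⟩ => ⟨u, a, b, c.symm⟩
  have mono : ∀ k k' a b, k ≤ k' → Mer Ω k a b → Mer Ω k' a b :=
    fun k k' a b h ⟨u, a, b, c⟩ => ⟨u, a, b.trans h, c⟩
  have inj : ∀ s ≤ w.length, ∀ t ≤ w.length, (P s = P t ∧ Q s = Q t) ∨ (P s = Q t ∧ Q s = P t) →
      s = t := by
    intro s hs t ht h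
    have a := lo s (w.length - t) (by
      rcases h with h | h <;> rw [h.1, h.2]
      exacts [up t, sy _ _ _ (up t)])
    have b := lo t (w.length - s) (by
      rcases h with h | h
      · rw [← h.1, ← h.2]; exact up s
      · rw [← h.1, ← h.2]; exact sy _ _ _ (up s))
    omega
  obtain ⟨R, hR⟩ : ∃ R, R = (range (w.length + 1)).image P := ⟨_, rfl⟩
  have c1 : w.length + 1 ≤ R.card * n := by
    have := card_le_card_of_injOn (s := range (w.length + 1)) (t := R ×ˢ univ)
      (fun t => (P t, Q t)) (fun t ht => by simpa [hR] using ⟨t, by simpa using ht, rfl⟩)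
      (fun s hs t ht h => inj s (by simpa [Nat.lt_succ_iff] using hs) t
        (by simpa [Nat.lt_succ_iff] using ht) (Or.inl (Prod.mk.inj h)))
    simpa using this
  obtain ⟨K, hK⟩ : ∃ K, w.length = n + K := Nat.exists_eq_add_of_le (by omega)
  have c2 : ∀ s ∈ R, n ≤ 2 * ((univ.filter fun t => ¬ Mer Ω K s t).card + 1) := by
    intro s hs
    obtain ⟨t, -, rfl⟩ := mem_image.1 (hR ▸ hs)
    obtain ⟨v, a, b, c⟩ := short (f x) (w.take t) (fun g h => hw g (List.mem_of_mem_take h))
    have k := card_le_mul_card_image (s := univ) (f := fun c => act v (f c)) 2 (fun r _ => by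
      by_contra h
      obtain ⟨i, j, k, hi, hj, hk, ij, ik, jk⟩ := two_lt_card_iff.1 (not_le.1 h)
      simp only [mem_filter, mem_univ, true_and] at hi hj hk
      have := hmin (f :: v) (sync_iff.2 ⟨by
        simp only [List.mem_cons]
        rintro g (rfl | h)
        exacts [hf, a g h], i, j, k, ij, ik, jk, hi.trans hj.symm, hi.trans hk.symm⟩)
      simp at this
      omega)
    rw [card_univ, Fintype.card_fin] at k
    refine k.trans (Nat.mul_le_mul_left _ ((card_le_card (t := insert (P t) _) ?_).trans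
      (card_insert_le _ _)))
    intro r hr
    obtain ⟨d, -, rfl⟩ := mem_image.1 hr
    rw [mem_insert, hP, ← c]
    by_cases h : d = x ∨ d = y
    · left; rcases h with rfl | rfl; exacts [rfl, by rw [e]]
    · right
      simp only [mem_filter, mem_univ, true_and]
      intro h'
      have := far v a d K (fun k => h (Or.inl k)) (fun k => h (Or.inr k)) h'
      omega
  have c3 : K + K ≤ (univ.filter fun p : Fin n × Fin n => Mer Ω K p.1 p.2).card := by
    have i1 : Set.InjOn (fun t => (P t, Q t)) (Ico n (n + K) : Finset ℕ) := fun s hs t ht h => by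
      simp only [coe_Ico, Set.mem_Ico] at hs ht
      exact inj s (by omega) t (by omega) (Or.inl (Prod.mk.inj h))
    have i2 : Set.InjOn (fun t => (Q t, P t)) (Ico n (n + K) : Finset ℕ) := fun s hs t ht h => by
      simp only [coe_Ico, Set.mem_Ico] at hs ht
      exact inj s (by omega) t (by omega) (Or.inl (Prod.mk.inj h).symm)
    have d : Disjoint ((Ico n (n + K)).image fun t => (P t, Q t))
        ((Ico n (n + K)).image fun t => (Q t, P t)) := by
      simp only [disjoint_left, mem_image, mem_Ico]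
      rintro _ ⟨s, hs, rfl⟩ ⟨t, ht, h⟩
      have h := Prod.mk.inj h
      obtain rfl := inj s (by omega) t (by omega) (Or.inr ⟨h.1.symm, h.2.symm⟩)
      have := lo s 0 ⟨[], by simp, le_rfl, h.2⟩
      omega
    have := card_union_of_disjoint d
    rw [card_image_of_injOn i1, card_image_of_injOn i2, Nat.card_Ico, Nat.add_sub_cancel_left] at this
    rw [← this]
    refine card_le_card (union_subset ?_ ?_) <;> simp only [image_subset_iff, mem_filter, mem_Ico]
    · exact fun t ht => ⟨mem_univ _, mono _ _ _ _ (by omega) (up t)⟩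
    · exact fun t ht => ⟨mem_univ _, sy _ _ _ (mono _ _ _ _ (by omega) (up t))⟩
  have c4 := card_filter_add_card_filter_not (s := univ) fun p : Fin n × Fin n => Mer Ω K p.1 p.2
  have c5 : ∑ s ∈ R, (univ.filter fun t => ¬ Mer Ω K s t).card
      ≤ (univ.filter fun p : Fin n × Fin n => ¬ Mer Ω K p.1 p.2).card := by
    rw [card_filter, Fintype.sum_prod_type]
    simp only [← card_filter]
    exact sum_le_sum_of_subset (subset_univ _)
  have c6 := card_nsmul_le_sum _ _ _ c2
  rw [← mul_sum, sum_add_distrib, ← card_eq_sum_ones, smul_eq_mul] at c6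
  have c7 : R.card ≤ n := by simpa using card_le_univ R
  rw [card_univ, Fintype.card_prod, Fintype.card_fin] at c4
  nlinarith

end Aux

/-- If some `3`-set can be synchronized, then some `3`-set is synchronized by a word of length at
most `(2/5) n ^ 2 + 2 n`. -/
theorem result (n : ℕ) (Ω : Finset (Fin n → Fin n)) (h : ∃ w, Sync3 Ω w) :
    ∃ w, Sync3 Ω w ∧ 5 * w.length ≤ 2 * n ^ 2 + 10 * n := by
  obtain ⟨w, hw, hmin⟩ := (measure List.length).wf.has_min {w | Sync3 Ω w} h
  replace hmin : ∀ u, Sync3 Ω u → w.length ≤ u.length := fun u hu => not_lt.1 (hmin u hu)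
  refine ⟨w, hw, ?_⟩
  obtain ⟨hΩ, x, y, z, xy, xz, yz, a, b⟩ := sync_iff.1 hw
  cases w with
  | nil => simp
  | cons f w =>
    have hf := hΩ f (by simp)
    have hw' : ∀ g ∈ w, g ∈ Ω := fun g hg => hΩ g (by simp [hg])
    change act w (f x) = act w (f y) at a
    change act w (f x) = act w (f z) at b
    by_cases h1 : f x = f y
    · exact core f w hf hw' x y z xy h1 b xz yz hmin
    by_cases h2 : f x = f z
    · exact core f w hf hw' x z y xz h2 a xy yz.symm hmin
    by_cases h3 : f y = f z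
    · exact core f w hf hw' y z x yz h3 a.symm xy.symm xz.symm hmin
    have := hmin w (sync_iff.2 ⟨hw', _, _, _, h1, h2, h3, a, b⟩)
    simp at this

end Pool.Agent.Results.MP_f4a429_co.Upper
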